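import Pool.Agent.NNr.R13_1_2_6.D0
import Pool.Agent.NNr.R13_1_2_6.D1
import Pool.Agent.NNr.R13_1_2_6.D2
import Pool.Agent.NNe.Slots

set_option linter.all false
set_option maxRecDepth 1000000
namespace Pool.Agent.NNr.R13_1_2_6

open Pool.Agent.NNe

def wf0_0 : wfC (nat_lit 61) (nat_lit 2) C0_0 = true := by decide +kernel
def pl0_0 : plCk (nat_lit 61) (nat_lit 2) (nat_lit 13) (nat_lit 1) (nat_lit 0) (nat_lit 6) (nat_lit 24) (nat_lit 4) (nat_lit 0) nl0 CL0 = true := by decide +kernel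
def wf0_1 : wfC (nat_lit 61) (nat_lit 2) C0_1 = true := by decide +kernel
def pl0_1 : plCk (nat_lit 61) (nat_lit 2) (nat_lit 13) (nat_lit 1) (nat_lit 0) (nat_lit 6) (nat_lit 24) (nat_lit 4) (nat_lit 1) nl0 CL0 = true := by decide +kernel
def wf0_2 : wfC (nat_lit 61) (nat_lit 2) C0_2 = true := by decide +kernel
def pl0_2 : plCk (nat_lit 61) (nat_lit 2) (nat_lit 13) (nat_lit 1) (nat_lit 0) (nat_lit 6) (nat_lit 24) (nat_lit 4) (nat_lit 2) nl0 CL0 = true := by decide +kernel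
def wf0_3 : wfC (nat_lit 61) (nat_lit 2) C0_3 = true := by decide +kernel
def pl0_3 : plCk (nat_lit 61) (nat_lit 2) (nat_lit 13) (nat_lit 1) (nat_lit 0) (nat_lit 6) (nat_lit 24) (nat_lit 4) (nat_lit 3) nl0 CL0 = true := by decide +kernel
def wf0_4 : wfC (nat_lit 61) (nat_lit 2) C0_4 = true := by decide +kernel
def pl0_4 : plCk (nat_lit 61) (nat_lit 2) (nat_lit 13) (nat_lit 1) (nat_lit 0) (nat_lit 6) (nat_lit 24) (nat_lit 4) (nat_lit 4) nl0 CL0 = true := by decide +kernel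
def wf0_5 : wfC (nat_lit 61) (nat_lit 2) C0_5 = true := by decide +kernel
def pl0_5 : plCk (nat_lit 61) (nat_lit 2) (nat_lit 13) (nat_lit 1) (nat_lit 0) (nat_lit 6) (nat_lit 24) (nat_lit 4) (nat_lit 5) nl0 CL0 = true := by decide +kernel
def wf0_6 : wfC (nat_lit 61) (nat_lit 2) C0_6 = true := by decide +kernel
def pl0_6 : plCk (nat_lit 61) (nat_lit 2) (nat_lit 13) (nat_lit 1) (nat_lit 0) (nat_lit 6) (nat_lit 24) (nat_lit 4) (nat_lit 6) nl0 CL0 = true := by decide +kernel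
def wf0_7 : wfC (nat_lit 61) (nat_lit 2) C0_7 = true := by decide +kernel
def pl0_7 : plCk (nat_lit 61) (nat_lit 2) (nat_lit 13) (nat_lit 1) (nat_lit 0) (nat_lit 6) (nat_lit 24) (nat_lit 4) (nat_lit 7) nl0 CL0 = true := by decide +kernel
def wf0_8 : wfC (nat_lit 61) (nat_lit 2) C0_8 = true := by decide +kernel
def pl0_8 : plCk (nat_lit 61) (nat_lit 2) (nat_lit 13) (nat_lit 1) (nat_lit 0) (nat_lit 6) (nat_lit 24) (nat_lit 4) (nat_lit 8) nl0 CL0 = true := by decide +kernel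
def wf0_9 : wfC (nat_lit 61) (nat_lit 2) C0_9 = true := by decide +kernel
def pl0_9 : plCk (nat_lit 61) (nat_lit 2) (nat_lit 13) (nat_lit 1) (nat_lit 0) (nat_lit 6) (nat_lit 24) (nat_lit 4) (nat_lit 9) nl0 CL0 = true := by decide +kernel
def wf0_10 : wfC (nat_lit 61) (nat_lit 2) C0_10 = true := by decide +kernel
def pl0_10 : plCk (nat_lit 61) (nat_lit 2) (nat_lit 13) (nat_lit 1) (nat_lit 0) (nat_lit 6) (nat_lit 24) (nat_lit 4) (nat_lit 10) nl0 CL0 = true := by decide +kernel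
def wf0_11 : wfC (nat_lit 61) (nat_lit 2) C0_11 = true := by decide +kernel
def pl0_11 : plCk (nat_lit 61) (nat_lit 2) (nat_lit 13) (nat_lit 1) (nat_lit 0) (nat_lit 6) (nat_lit 24) (nat_lit 4) (nat_lit 11) nl0 CL0 = true := by decide +kernel
def wf0_12 : wfC (nat_lit 61) (nat_lit 2) C0_12 = true := by decide +kernel
def pl0_12 : plCk (nat_lit 61) (nat_lit 2) (nat_lit 13) (nat_lit 1) (nat_lit 0) (nat_lit 6) (nat_lit 24) (nat_lit 4) (nat_lit 12) nl0 CL0 = true := by decide +kernel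
def wf0_13 : wfC (nat_lit 61) (nat_lit 2) C0_13 = true := by decide +kernel
def pl0_13 : plCk (nat_lit 61) (nat_lit 2) (nat_lit 13) (nat_lit 1) (nat_lit 0) (nat_lit 6) (nat_lit 24) (nat_lit 4) (nat_lit 13) nl0 CL0 = true := by decide +kernel
def wf0_14 : wfC (nat_lit 61) (nat_lit 2) C0_14 = true := by decide +kernel
def pl0_14 : plCk (nat_lit 61) (nat_lit 2) (nat_lit 13) (nat_lit 1) (nat_lit 0) (nat_lit 6) (nat_lit 24) (nat_lit 4) (nat_lit 14) nl0 CL0 = true := by decide +kernel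
def wf0_15 : wfC (nat_lit 61) (nat_lit 2) C0_15 = true := by decide +kernel
def pl0_15 : plCk (nat_lit 61) (nat_lit 2) (nat_lit 13) (nat_lit 1) (nat_lit 0) (nat_lit 6) (nat_lit 24) (nat_lit 4) (nat_lit 15) nl0 CL0 = true := by decide +kernel
def wf0_16 : wfC (nat_lit 61) (nat_lit 2) C0_16 = true := by decide +kernel
def pl0_16 : plCk (nat_lit 61) (nat_lit 2) (nat_lit 13) (nat_lit 1) (nat_lit 0) (nat_lit 6) (nat_lit 24) (nat_lit 4) (nat_lit 16) nl0 CL0 = true := by decide +kernel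
def wf0_17 : wfC (nat_lit 61) (nat_lit 2) C0_17 = true := by decide +kernel
def pl0_17 : plCk (nat_lit 61) (nat_lit 2) (nat_lit 13) (nat_lit 1) (nat_lit 0) (nat_lit 6) (nat_lit 24) (nat_lit 4) (nat_lit 17) nl0 CL0 = true := by decide +kernel
def wf0_18 : wfC (nat_lit 61) (nat_lit 2) C0_18 = true := by decide +kernel
def pl0_18 : plCk (nat_lit 61) (nat_lit 2) (nat_lit 13) (nat_lit 1) (nat_lit 0) (nat_lit 6) (nat_lit 24) (nat_lit 4) (nat_lit 18) nl0 CL0 = true := by decide +kernel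
def wf0_19 : wfC (nat_lit 61) (nat_lit 2) C0_19 = true := by decide +kernel
def pl0_19 : plCk (nat_lit 61) (nat_lit 2) (nat_lit 13) (nat_lit 1) (nat_lit 0) (nat_lit 6) (nat_lit 24) (nat_lit 4) (nat_lit 19) nl0 CL0 = true := by decide +kernel
def wf0_20 : wfC (nat_lit 61) (nat_lit 2) C0_20 = true := by decide +kernel
def pl0_20 : plCk (nat_lit 61) (nat_lit 2) (nat_lit 13) (nat_lit 1) (nat_lit 0) (nat_lit 6) (nat_lit 24) (nat_lit 4) (nat_lit 20) nl0 CL0 = true := by decide +kernel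
def wf0_21 : wfC (nat_lit 61) (nat_lit 2) C0_21 = true := by decide +kernel
def pl0_21 : plCk (nat_lit 61) (nat_lit 2) (nat_lit 13) (nat_lit 1) (nat_lit 0) (nat_lit 6) (nat_lit 24) (nat_lit 4) (nat_lit 21) nl0 CL0 = true := by decide +kernel
def wf0_22 : wfC (nat_lit 61) (nat_lit 2) C0_22 = true := by decide +kernel
def pl0_22 : plCk (nat_lit 61) (nat_lit 2) (nat_lit 13) (nat_lit 1) (nat_lit 0) (nat_lit 6) (nat_lit 24) (nat_lit 4) (nat_lit 22) nl0 CL0 = true := by decide +kernel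
def wf0_23 : wfC (nat_lit 61) (nat_lit 2) C0_23 = true := by decide +kernel
def pl0_23 : plCk (nat_lit 61) (nat_lit 2) (nat_lit 13) (nat_lit 1) (nat_lit 0) (nat_lit 6) (nat_lit 24) (nat_lit 4) (nat_lit 23) nl0 CL0 = true := by decide +kernel
def ti0_0 : tileCk (nat_lit 61) (nat_lit 2) (nat_lit 1) (nat_lit 1) (nat_lit 434) (nat_lit 13) (nat_lit 24) ZL0_0 CL0 = true := by decide +kernel
def zl0_0 : zlOK (nat_lit 434) ZL0_0 = true := by decide +kernel
def tc0_0 : tiCov (nat_lit 1) (nat_lit 0) ZZ0 C0_0 = true := by decide +kernel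
def tc0_1 : tiCov (nat_lit 1) (nat_lit 1) ZZ0 C0_1 = true := by decide +kernel
def tc0_2 : tiCov (nat_lit 1) (nat_lit 2) ZZ0 C0_2 = true := by decide +kernel
def tc0_3 : tiCov (nat_lit 1) (nat_lit 3) ZZ0 C0_3 = true := by decide +kernel
def tc0_4 : tiCov (nat_lit 1) (nat_lit 4) ZZ0 C0_4 = true := by decide +kernel
def tc0_5 : tiCov (nat_lit 1) (nat_lit 5) ZZ0 C0_5 = true := by decide +kernel
def tc0_6 : tiCov (nat_lit 1) (nat_lit 6) ZZ0 C0_6 = true := by decide +kernel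
def tc0_7 : tiCov (nat_lit 1) (nat_lit 7) ZZ0 C0_7 = true := by decide +kernel
def tc0_8 : tiCov (nat_lit 1) (nat_lit 8) ZZ0 C0_8 = true := by decide +kernel
def tc0_9 : tiCov (nat_lit 1) (nat_lit 9) ZZ0 C0_9 = true := by decide +kernel
def tc0_10 : tiCov (nat_lit 1) (nat_lit 10) ZZ0 C0_10 = true := by decide +kernel
def tc0_11 : tiCov (nat_lit 1) (nat_lit 11) ZZ0 C0_11 = true := by decide +kernel
def tc0_12 : tiCov (nat_lit 1) (nat_lit 12) ZZ0 C0_12 = true := by decide +kernel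
def tc0_13 : tiCov (nat_lit 1) (nat_lit 13) ZZ0 C0_13 = true := by decide +kernel
def tc0_14 : tiCov (nat_lit 1) (nat_lit 14) ZZ0 C0_14 = true := by decide +kernel
def tc0_15 : tiCov (nat_lit 1) (nat_lit 15) ZZ0 C0_15 = true := by decide +kernel
def tc0_16 : tiCov (nat_lit 1) (nat_lit 16) ZZ0 C0_16 = true := by decide +kernel
def tc0_17 : tiCov (nat_lit 1) (nat_lit 17) ZZ0 C0_17 = true := by decide +kernel
def tc0_18 : tiCov (nat_lit 1) (nat_lit 18) ZZ0 C0_18 = true := by decide +kernel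
def tc0_19 : tiCov (nat_lit 1) (nat_lit 19) ZZ0 C0_19 = true := by decide +kernel
def tc0_20 : tiCov (nat_lit 1) (nat_lit 20) ZZ0 C0_20 = true := by decide +kernel
def tc0_21 : tiCov (nat_lit 1) (nat_lit 21) ZZ0 C0_21 = true := by decide +kernel
def tc0_22 : tiCov (nat_lit 1) (nat_lit 22) ZZ0 C0_22 = true := by decide +kernel
def tc0_23 : tiCov (nat_lit 1) (nat_lit 23) ZZ0 C0_23 = true := by decide +kernel
def wf1_0 : wfC (nat_lit 60) (nat_lit 4) C1_0 = true := by decide +kernel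
def rf1_0 : rfCk (nat_lit 61) (nat_lit 2) (nat_lit 60) (nat_lit 4) (nat_lit 9) (nat_lit 0) (nat_lit 0) TL1 CL0 CL1 = true := by decide +kernel
def st1_0_0 : starCk (nat_lit 60) (nat_lit 4) (nat_lit 1) (nat_lit 2) (nat_lit 16) (nat_lit 0) (nat_lit 256) C1_0 = true := by decide +kernel
def sc1_0 : stCov (nat_lit 2) (nat_lit 0) (Rl.cons (nat_lit 0) (nat_lit 16) Rl.nil) C1_0 = true := by decide +kernel
def wf1_1 : wfC (nat_lit 60) (nat_lit 4) C1_1 = true := by decide +kernel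
def rf1_1 : rfCk (nat_lit 61) (nat_lit 2) (nat_lit 60) (nat_lit 4) (nat_lit 9) (nat_lit 0) (nat_lit 1) TL1 CL0 CL1 = true := by decide +kernel
def st1_1_0 : starCk (nat_lit 60) (nat_lit 4) (nat_lit 1) (nat_lit 2) (nat_lit 25) (nat_lit 41) (nat_lit 256) C1_1 = true := by decide +kernel
def sc1_1 : stCov (nat_lit 2) (nat_lit 41) (Rl.cons (nat_lit 41) (nat_lit 25) Rl.nil) C1_1 = true := by decide +kernel
def wf1_2 : wfC (nat_lit 60) (nat_lit 4) C1_2 = true := by decide +kernel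
def rf1_2 : rfCk (nat_lit 61) (nat_lit 2) (nat_lit 60) (nat_lit 4) (nat_lit 9) (nat_lit 0) (nat_lit 2) TL1 CL0 CL1 = true := by decide +kernel
def st1_2_0 : starCk (nat_lit 60) (nat_lit 4) (nat_lit 1) (nat_lit 2) (nat_lit 6) (nat_lit 27) (nat_lit 256) C1_2 = true := by decide +kernel
def sc1_2 : stCov (nat_lit 2) (nat_lit 27) (Rl.cons (nat_lit 27) (nat_lit 6) Rl.nil) C1_2 = true := by decide +kernel
def wf1_3 : wfC (nat_lit 60) (nat_lit 4) C1_3 = true := by decide +kernel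
def rf1_3 : rfCk (nat_lit 61) (nat_lit 2) (nat_lit 60) (nat_lit 4) (nat_lit 9) (nat_lit 0) (nat_lit 3) TL1 CL0 CL1 = true := by decide +kernel
def st1_3_0 : starCk (nat_lit 60) (nat_lit 4) (nat_lit 1) (nat_lit 2) (nat_lit 5) (nat_lit 0) (nat_lit 16) C1_3 = true := by decide +kernel
def sc1_3 : stCov (nat_lit 1) (nat_lit 0) (Rl.cons (nat_lit 0) (nat_lit 5) Rl.nil) C1_3 = true := by decide +kernel
def wf1_4 : wfC (nat_lit 60) (nat_lit 4) C1_4 = true := by decide +kernel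
def rf1_4 : rfCk (nat_lit 61) (nat_lit 2) (nat_lit 60) (nat_lit 4) (nat_lit 9) (nat_lit 0) (nat_lit 4) TL1 CL0 CL1 = true := by decide +kernel
def st1_4_0 : starCk (nat_lit 60) (nat_lit 4) (nat_lit 1) (nat_lit 2) (nat_lit 20) (nat_lit 32) (nat_lit 1) C1_4 = true := by decide +kernel
def sc1_4 : stCov (nat_lit 0) (nat_lit 32) (Rl.cons (nat_lit 32) (nat_lit 20) Rl.nil) C1_4 = true := by decide +kernel
def wf1_5 : wfC (nat_lit 60) (nat_lit 4) C1_5 = true := by decide +kernel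
def rf1_5 : rfCk (nat_lit 61) (nat_lit 2) (nat_lit 60) (nat_lit 4) (nat_lit 9) (nat_lit 0) (nat_lit 5) TL1 CL0 CL1 = true := by decide +kernel
def st1_5_0 : starCk (nat_lit 60) (nat_lit 4) (nat_lit 1) (nat_lit 2) (nat_lit 8) (nat_lit 69) (nat_lit 256) C1_5 = true := by decide +kernel
def sc1_5 : stCov (nat_lit 2) (nat_lit 69) (Rl.cons (nat_lit 69) (nat_lit 8) Rl.nil) C1_5 = true := by decide +kernel
def wf1_6 : wfC (nat_lit 60) (nat_lit 4) C1_6 = true := by decide +kernel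
def rf1_6 : rfCk (nat_lit 61) (nat_lit 2) (nat_lit 60) (nat_lit 4) (nat_lit 9) (nat_lit 0) (nat_lit 6) TL1 CL0 CL1 = true := by decide +kernel
def st1_6_0 : starCk (nat_lit 60) (nat_lit 4) (nat_lit 1) (nat_lit 2) (nat_lit 2) (nat_lit 4) (nat_lit 1) C1_6 = true := by decide +kernel
def sc1_6 : stCov (nat_lit 0) (nat_lit 4) (Rl.cons (nat_lit 4) (nat_lit 2) Rl.nil) C1_6 = true := by decide +kernel
def wf1_7 : wfC (nat_lit 60) (nat_lit 4) C1_7 = true := by decide +kernel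
def rf1_7 : rfCk (nat_lit 61) (nat_lit 2) (nat_lit 60) (nat_lit 4) (nat_lit 9) (nat_lit 0) (nat_lit 7) TL1 CL0 CL1 = true := by decide +kernel
def st1_7_0 : starCk (nat_lit 60) (nat_lit 4) (nat_lit 1) (nat_lit 2) (nat_lit 14) (nat_lit 44) (nat_lit 16) C1_7 = true := by decide +kernel
def sc1_7 : stCov (nat_lit 1) (nat_lit 44) (Rl.cons (nat_lit 44) (nat_lit 14) Rl.nil) C1_7 = true := by decide +kernel
def wf1_8 : wfC (nat_lit 60) (nat_lit 4) C1_8 = true := by decide +kernel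
def rf1_8 : rfCk (nat_lit 61) (nat_lit 2) (nat_lit 60) (nat_lit 4) (nat_lit 9) (nat_lit 0) (nat_lit 8) TL1 CL0 CL1 = true := by decide +kernel
def st1_8_0 : starCk (nat_lit 60) (nat_lit 4) (nat_lit 1) (nat_lit 2) (nat_lit 6) (nat_lit 45) (nat_lit 256) C1_8 = true := by decide +kernel
def sc1_8 : stCov (nat_lit 2) (nat_lit 45) (Rl.cons (nat_lit 45) (nat_lit 6) Rl.nil) C1_8 = true := by decide +kernel
def wf1_9 : wfC (nat_lit 60) (nat_lit 4) C1_9 = true := by decide +kernel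
def rf1_9 : rfCk (nat_lit 61) (nat_lit 2) (nat_lit 60) (nat_lit 4) (nat_lit 9) (nat_lit 0) (nat_lit 9) TL1 CL0 CL1 = true := by decide +kernel
def st1_9_0 : starCk (nat_lit 60) (nat_lit 4) (nat_lit 1) (nat_lit 2) (nat_lit 1) (nat_lit 2) (nat_lit 1) C1_9 = true := by decide +kernel
def sc1_9 : stCov (nat_lit 0) (nat_lit 2) (Rl.cons (nat_lit 2) (nat_lit 1) Rl.nil) C1_9 = true := by decide +kernel
def wf1_10 : wfC (nat_lit 60) (nat_lit 4) C1_10 = true := by decide +kernel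
def rf1_10 : rfCk (nat_lit 61) (nat_lit 2) (nat_lit 60) (nat_lit 4) (nat_lit 9) (nat_lit 0) (nat_lit 10) TL1 CL0 CL1 = true := by decide +kernel
def st1_10_0 : starCk (nat_lit 60) (nat_lit 4) (nat_lit 1) (nat_lit 2) (nat_lit 6) (nat_lit 22) (nat_lit 256) C1_10 = true := by decide +kernel
def sc1_10 : stCov (nat_lit 2) (nat_lit 22) (Rl.cons (nat_lit 22) (nat_lit 6) Rl.nil) C1_10 = true := by decide +kernel
def wf1_11 : wfC (nat_lit 60) (nat_lit 4) C1_11 = true := by decide +kernel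
def rf1_11 : rfCk (nat_lit 61) (nat_lit 2) (nat_lit 60) (nat_lit 4) (nat_lit 9) (nat_lit 0) (nat_lit 11) TL1 CL0 CL1 = true := by decide +kernel
def sc1_11 : stCov (nat_lit 2) (nat_lit 0) Rl.nil C1_11 = true := by decide +kernel
def wf1_12 : wfC (nat_lit 60) (nat_lit 4) C1_12 = true := by decide +kernel
def rf1_12 : rfCk (nat_lit 61) (nat_lit 2) (nat_lit 60) (nat_lit 4) (nat_lit 9) (nat_lit 0) (nat_lit 12) TL1 CL0 CL1 = true := by decide +kernel
def sc1_12 : stCov (nat_lit 1) (nat_lit 0) Rl.nil C1_12 = true := by decide +kernel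
def wf1_13 : wfC (nat_lit 60) (nat_lit 4) C1_13 = true := by decide +kernel
def rf1_13 : rfCk (nat_lit 61) (nat_lit 2) (nat_lit 60) (nat_lit 4) (nat_lit 9) (nat_lit 0) (nat_lit 13) TL1 CL0 CL1 = true := by decide +kernel
def st1_13_0 : starCk (nat_lit 60) (nat_lit 4) (nat_lit 1) (nat_lit 2) (nat_lit 1) (nat_lit 6) (nat_lit 256) C1_13 = true := by decide +kernel
def sc1_13 : stCov (nat_lit 2) (nat_lit 6) (Rl.cons (nat_lit 6) (nat_lit 1) Rl.nil) C1_13 = true := by decide +kernel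
def wf1_15 : wfC (nat_lit 60) (nat_lit 4) C1_15 = true := by decide +kernel
def rf1_15 : rfCk (nat_lit 61) (nat_lit 2) (nat_lit 60) (nat_lit 4) (nat_lit 9) (nat_lit 0) (nat_lit 15) TL1 CL0 CL1 = true := by decide +kernel
def sc1_15 : stCov (nat_lit 1) (nat_lit 0) Rl.nil C1_15 = true := by decide +kernel
def wf1_17 : wfC (nat_lit 60) (nat_lit 4) C1_17 = true := by decide +kernel
def rf1_17 : rfCk (nat_lit 61) (nat_lit 2) (nat_lit 60) (nat_lit 4) (nat_lit 9) (nat_lit 0) (nat_lit 17) TL1 CL0 CL1 = true := by decide +kernel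
def st1_17_0 : starCk (nat_lit 60) (nat_lit 4) (nat_lit 1) (nat_lit 2) (nat_lit 52) (nat_lit 111) (nat_lit 16) C1_17 = true := by decide +kernel
def sc1_17 : stCov (nat_lit 1) (nat_lit 111) (Rl.cons (nat_lit 111) (nat_lit 52) Rl.nil) C1_17 = true := by decide +kernel
def wf1_18 : wfC (nat_lit 60) (nat_lit 4) C1_18 = true := by decide +kernel
def rf1_18 : rfCk (nat_lit 61) (nat_lit 2) (nat_lit 60) (nat_lit 4) (nat_lit 9) (nat_lit 0) (nat_lit 18) TL1 CL0 CL1 = true := by decide +kernel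
def st1_18_0 : starCk (nat_lit 60) (nat_lit 4) (nat_lit 1) (nat_lit 2) (nat_lit 35) (nat_lit 29) (nat_lit 1) C1_18 = true := by decide +kernel
def sc1_18 : stCov (nat_lit 0) (nat_lit 29) (Rl.cons (nat_lit 29) (nat_lit 35) Rl.nil) C1_18 = true := by decide +kernel
def wf1_19 : wfC (nat_lit 60) (nat_lit 4) C1_19 = true := by decide +kernel
def rf1_19 : rfCk (nat_lit 61) (nat_lit 2) (nat_lit 60) (nat_lit 4) (nat_lit 9) (nat_lit 0) (nat_lit 19) TL1 CL0 CL1 = true := by decide +kernel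
def st1_19_0 : starCk (nat_lit 60) (nat_lit 4) (nat_lit 1) (nat_lit 2) (nat_lit 54) (nat_lit 99) (nat_lit 256) C1_19 = true := by decide +kernel
def sc1_19 : stCov (nat_lit 2) (nat_lit 99) (Rl.cons (nat_lit 99) (nat_lit 54) Rl.nil) C1_19 = true := by decide +kernel
def wf1_20 : wfC (nat_lit 60) (nat_lit 4) C1_20 = true := by decide +kernel
def rf1_20 : rfCk (nat_lit 61) (nat_lit 2) (nat_lit 60) (nat_lit 4) (nat_lit 9) (nat_lit 0) (nat_lit 20) TL1 CL0 CL1 = true := by decide +kernel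
def st1_20_0 : starCk (nat_lit 60) (nat_lit 4) (nat_lit 1) (nat_lit 2) (nat_lit 73) (nat_lit 139) (nat_lit 4096) C1_20 = true := by decide +kernel
def sc1_20 : stCov (nat_lit 3) (nat_lit 139) (Rl.cons (nat_lit 139) (nat_lit 73) Rl.nil) C1_20 = true := by decide +kernel
def wf1_21 : wfC (nat_lit 60) (nat_lit 4) C1_21 = true := by decide +kernel
def rf1_21 : rfCk (nat_lit 61) (nat_lit 2) (nat_lit 60) (nat_lit 4) (nat_lit 9) (nat_lit 0) (nat_lit 21) TL1 CL0 CL1 = true := by decide +kernel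
def st1_21_0 : starCk (nat_lit 60) (nat_lit 4) (nat_lit 1) (nat_lit 2) (nat_lit 46) (nat_lit 100) (nat_lit 4096) C1_21 = true := by decide +kernel
def sc1_21 : stCov (nat_lit 3) (nat_lit 100) (Rl.cons (nat_lit 100) (nat_lit 46) Rl.nil) C1_21 = true := by decide +kernel
def wf1_22 : wfC (nat_lit 60) (nat_lit 4) C1_22 = true := by decide +kernel
def rf1_22 : rfCk (nat_lit 61) (nat_lit 2) (nat_lit 60) (nat_lit 4) (nat_lit 9) (nat_lit 0) (nat_lit 22) TL1 CL0 CL1 = true := by decide +kernel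
def st1_22_0 : starCk (nat_lit 60) (nat_lit 4) (nat_lit 1) (nat_lit 2) (nat_lit 11) (nat_lit 31) (nat_lit 16) C1_22 = true := by decide +kernel
def sc1_22 : stCov (nat_lit 1) (nat_lit 31) (Rl.cons (nat_lit 31) (nat_lit 11) Rl.nil) C1_22 = true := by decide +kernel
def wf1_23 : wfC (nat_lit 60) (nat_lit 4) C1_23 = true := by decide +kernel
def rf1_23 : rfCk (nat_lit 61) (nat_lit 2) (nat_lit 60) (nat_lit 4) (nat_lit 9) (nat_lit 0) (nat_lit 23) TL1 CL0 CL1 = true := by decide +kernel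
def sc1_23 : stCov (nat_lit 3) (nat_lit 0) Rl.nil C1_23 = true := by decide +kernel
def ti1_0 : tileCk (nat_lit 60) (nat_lit 4) (nat_lit 2) (nat_lit 1) (nat_lit 296) (nat_lit 13) (nat_lit 24) ZL1_0 CL1 = true := by decide +kernel
def zl1_0 : zlOK (nat_lit 296) ZL1_0 = true := by decide +kernel
def tc1_0 : tiCov (nat_lit 1) (nat_lit 0) ZZ1 C1_0 = true := by decide +kernel
def tc1_1 : tiCov (nat_lit 1) (nat_lit 1) ZZ1 C1_1 = true := by decide +kernel
def tc1_2 : tiCov (nat_lit 1) (nat_lit 2) ZZ1 C1_2 = true := by decide +kernel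
def tc1_3 : tiCov (nat_lit 1) (nat_lit 3) ZZ1 C1_3 = true := by decide +kernel
def tc1_4 : tiCov (nat_lit 1) (nat_lit 4) ZZ1 C1_4 = true := by decide +kernel
def tc1_5 : tiCov (nat_lit 1) (nat_lit 5) ZZ1 C1_5 = true := by decide +kernel
def tc1_6 : tiCov (nat_lit 1) (nat_lit 6) ZZ1 C1_6 = true := by decide +kernel
def tc1_7 : tiCov (nat_lit 1) (nat_lit 7) ZZ1 C1_7 = true := by decide +kernel
def tc1_8 : tiCov (nat_lit 1) (nat_lit 8) ZZ1 C1_8 = true := by decide +kernel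
def tc1_9 : tiCov (nat_lit 1) (nat_lit 9) ZZ1 C1_9 = true := by decide +kernel
def tc1_10 : tiCov (nat_lit 1) (nat_lit 10) ZZ1 C1_10 = true := by decide +kernel
def tc1_11 : tiCov (nat_lit 1) (nat_lit 11) ZZ1 C1_11 = true := by decide +kernel
def tc1_12 : tiCov (nat_lit 1) (nat_lit 12) ZZ1 C1_12 = true := by decide +kernel
def tc1_13 : tiCov (nat_lit 1) (nat_lit 13) ZZ1 C1_13 = true := by decide +kernel
def tc1_15 : tiCov (nat_lit 1) (nat_lit 15) ZZ1 C1_15 = true := by decide +kernel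
def tc1_17 : tiCov (nat_lit 1) (nat_lit 17) ZZ1 C1_17 = true := by decide +kernel
def tc1_18 : tiCov (nat_lit 1) (nat_lit 18) ZZ1 C1_18 = true := by decide +kernel
def tc1_19 : tiCov (nat_lit 1) (nat_lit 19) ZZ1 C1_19 = true := by decide +kernel
def tc1_20 : tiCov (nat_lit 1) (nat_lit 20) ZZ1 C1_20 = true := by decide +kernel
def tc1_21 : tiCov (nat_lit 1) (nat_lit 21) ZZ1 C1_21 = true := by decide +kernel
def tc1_22 : tiCov (nat_lit 1) (nat_lit 22) ZZ1 C1_22 = true := by decide +kernel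
def tc1_23 : tiCov (nat_lit 1) (nat_lit 23) ZZ1 C1_23 = true := by decide +kernel
def wf2_0 : wfC (nat_lit 61) (nat_lit 15) C2_0 = true := by decide +kernel
def rf2_0 : rfCk (nat_lit 60) (nat_lit 4) (nat_lit 61) (nat_lit 15) (nat_lit 6) (nat_lit 262144) (nat_lit 0) TL2 CL1 CL2 = true := by decide +kernel
def st2_0_0 : starCk (nat_lit 61) (nat_lit 15) (nat_lit 1) (nat_lit 7) (nat_lit 52) (nat_lit 0) (nat_lit 256) C2_0 = true := by decide +kernel
def sc2_0 : stCov (nat_lit 2) (nat_lit 0) (Rl.cons (nat_lit 0) (nat_lit 52) Rl.nil) C2_0 = true := by decide +kernel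
def wf2_1 : wfC (nat_lit 61) (nat_lit 15) C2_1 = true := by decide +kernel

end Pool.Agent.NNr.R13_1_2_6
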