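import Pool.Agent.NNr.R13_1_2_6.D1
import Pool.Agent.NNr.R13_1_2_6.D2

set_option linter.all false
set_option maxRecDepth 1000000
namespace Pool.Agent.NNr.R13_1_2_6

open Pool.Agent.NNe

def rf2_1 : rfCk (nat_lit 60) (nat_lit 4) (nat_lit 61) (nat_lit 15) (nat_lit 6) (nat_lit 262144) (nat_lit 1) TL2 CL1 CL2 = true := by decide +kernel
def st2_1_0 : starCk (nat_lit 61) (nat_lit 15) (nat_lit 1) (nat_lit 7) (nat_lit 29) (nat_lit 0) (nat_lit 16) C2_1 = true := by decide +kernel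
def sc2_1 : stCov (nat_lit 1) (nat_lit 0) (Rl.cons (nat_lit 0) (nat_lit 29) Rl.nil) C2_1 = true := by decide +kernel
def wf2_2 : wfC (nat_lit 61) (nat_lit 15) C2_2 = true := by decide +kernel
def rf2_2 : rfCk (nat_lit 60) (nat_lit 4) (nat_lit 61) (nat_lit 15) (nat_lit 6) (nat_lit 262144) (nat_lit 2) TL2 CL1 CL2 = true := by decide +kernel
def st2_2_0 : starCk (nat_lit 61) (nat_lit 15) (nat_lit 1) (nat_lit 7) (nat_lit 20) (nat_lit 62) (nat_lit 256) C2_2 = true := by decide +kernel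
def sc2_2 : stCov (nat_lit 2) (nat_lit 62) (Rl.cons (nat_lit 62) (nat_lit 20) Rl.nil) C2_2 = true := by decide +kernel
def wf2_3 : wfC (nat_lit 61) (nat_lit 15) C2_3 = true := by decide +kernel
def rf2_3 : rfCk (nat_lit 60) (nat_lit 4) (nat_lit 61) (nat_lit 15) (nat_lit 6) (nat_lit 262144) (nat_lit 3) TL2 CL1 CL2 = true := by decide +kernel
def st2_3_0 : starCk (nat_lit 61) (nat_lit 15) (nat_lit 1) (nat_lit 7) (nat_lit 4) (nat_lit 0) (nat_lit 16) C2_3 = true := by decide +kernel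
def sc2_3 : stCov (nat_lit 1) (nat_lit 0) (Rl.cons (nat_lit 0) (nat_lit 4) Rl.nil) C2_3 = true := by decide +kernel
def wf2_4 : wfC (nat_lit 61) (nat_lit 15) C2_4 = true := by decide +kernel
def rf2_4 : rfCk (nat_lit 60) (nat_lit 4) (nat_lit 61) (nat_lit 15) (nat_lit 6) (nat_lit 262144) (nat_lit 4) TL2 CL1 CL2 = true := by decide +kernel
def st2_4_0 : starCk (nat_lit 61) (nat_lit 15) (nat_lit 1) (nat_lit 7) (nat_lit 39) (nat_lit 112) (nat_lit 16) C2_4 = true := by decide +kernel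
def sc2_4 : stCov (nat_lit 1) (nat_lit 112) (Rl.cons (nat_lit 112) (nat_lit 39) Rl.nil) C2_4 = true := by decide +kernel
def wf2_5 : wfC (nat_lit 61) (nat_lit 15) C2_5 = true := by decide +kernel
def rf2_5 : rfCk (nat_lit 60) (nat_lit 4) (nat_lit 61) (nat_lit 15) (nat_lit 6) (nat_lit 262144) (nat_lit 5) TL2 CL1 CL2 = true := by decide +kernel
def st2_5_0 : starCk (nat_lit 61) (nat_lit 15) (nat_lit 1) (nat_lit 7) (nat_lit 26) (nat_lit 154) (nat_lit 256) C2_5 = true := by decide +kernel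
def sc2_5 : stCov (nat_lit 2) (nat_lit 154) (Rl.cons (nat_lit 154) (nat_lit 26) Rl.nil) C2_5 = true := by decide +kernel
def wf2_7 : wfC (nat_lit 61) (nat_lit 15) C2_7 = true := by decide +kernel
def rf2_7 : rfCk (nat_lit 60) (nat_lit 4) (nat_lit 61) (nat_lit 15) (nat_lit 6) (nat_lit 262144) (nat_lit 7) TL2 CL1 CL2 = true := by decide +kernel
def st2_7_0 : starCk (nat_lit 61) (nat_lit 15) (nat_lit 1) (nat_lit 7) (nat_lit 21) (nat_lit 92) (nat_lit 16) C2_7 = true := by decide +kernel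
def sc2_7 : stCov (nat_lit 1) (nat_lit 92) (Rl.cons (nat_lit 92) (nat_lit 21) Rl.nil) C2_7 = true := by decide +kernel
def wf2_8 : wfC (nat_lit 61) (nat_lit 15) C2_8 = true := by decide +kernel
def rf2_8 : rfCk (nat_lit 60) (nat_lit 4) (nat_lit 61) (nat_lit 15) (nat_lit 6) (nat_lit 262144) (nat_lit 8) TL2 CL1 CL2 = true := by decide +kernel
def st2_8_0 : starCk (nat_lit 61) (nat_lit 15) (nat_lit 1) (nat_lit 7) (nat_lit 16) (nat_lit 85) (nat_lit 256) C2_8 = true := by decide +kernel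
def sc2_8 : stCov (nat_lit 2) (nat_lit 85) (Rl.cons (nat_lit 85) (nat_lit 16) Rl.nil) C2_8 = true := by decide +kernel
def wf2_10 : wfC (nat_lit 61) (nat_lit 15) C2_10 = true := by decide +kernel
def rf2_10 : rfCk (nat_lit 60) (nat_lit 4) (nat_lit 61) (nat_lit 15) (nat_lit 6) (nat_lit 262144) (nat_lit 10) TL2 CL1 CL2 = true := by decide +kernel
def st2_10_0 : starCk (nat_lit 61) (nat_lit 15) (nat_lit 1) (nat_lit 7) (nat_lit 16) (nat_lit 50) (nat_lit 256) C2_10 = true := by decide +kernel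
def sc2_10 : stCov (nat_lit 2) (nat_lit 50) (Rl.cons (nat_lit 50) (nat_lit 16) Rl.nil) C2_10 = true := by decide +kernel
def wf2_17 : wfC (nat_lit 61) (nat_lit 15) C2_17 = true := by decide +kernel
def rf2_17 : rfCk (nat_lit 60) (nat_lit 4) (nat_lit 61) (nat_lit 15) (nat_lit 6) (nat_lit 262144) (nat_lit 17) TL2 CL1 CL2 = true := by decide +kernel
def st2_17_0 : starCk (nat_lit 61) (nat_lit 15) (nat_lit 1) (nat_lit 7) (nat_lit 72) (nat_lit 242) (nat_lit 16) C2_17 = true := by decide +kernel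
def sc2_17 : stCov (nat_lit 1) (nat_lit 242) (Rl.cons (nat_lit 242) (nat_lit 72) Rl.nil) C2_17 = true := by decide +kernel
def wf2_18 : wfC (nat_lit 61) (nat_lit 15) C2_18 = true := by decide +kernel
def rf2_18 : rfCk (nat_lit 60) (nat_lit 4) (nat_lit 61) (nat_lit 15) (nat_lit 6) (nat_lit 262144) (nat_lit 18) TL2 CL1 CL2 = true := by decide +kernel
def st2_18_0 : starCk (nat_lit 61) (nat_lit 15) (nat_lit 1) (nat_lit 7) (nat_lit 92) (nat_lit 42) (nat_lit 1) C2_18 = true := by decide +kernel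
def sc2_18 : stCov (nat_lit 0) (nat_lit 42) (Rl.cons (nat_lit 42) (nat_lit 92) Rl.nil) C2_18 = true := by decide +kernel
def wf2_19 : wfC (nat_lit 61) (nat_lit 15) C2_19 = true := by decide +kernel
def rf2_19 : rfCk (nat_lit 60) (nat_lit 4) (nat_lit 61) (nat_lit 15) (nat_lit 6) (nat_lit 262144) (nat_lit 19) TL2 CL1 CL2 = true := by decide +kernel
def st2_19_0 : starCk (nat_lit 61) (nat_lit 15) (nat_lit 1) (nat_lit 7) (nat_lit 162) (nat_lit 215) (nat_lit 256) C2_19 = true := by decide +kernel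
def sc2_19 : stCov (nat_lit 2) (nat_lit 215) (Rl.cons (nat_lit 215) (nat_lit 162) Rl.nil) C2_19 = true := by decide +kernel
def wf2_20 : wfC (nat_lit 61) (nat_lit 15) C2_20 = true := by decide +kernel
def rf2_20 : rfCk (nat_lit 60) (nat_lit 4) (nat_lit 61) (nat_lit 15) (nat_lit 6) (nat_lit 262144) (nat_lit 20) TL2 CL1 CL2 = true := by decide +kernel
def st2_20_0 : starCk (nat_lit 61) (nat_lit 15) (nat_lit 1) (nat_lit 7) (nat_lit 42) (nat_lit 129) (nat_lit 16) C2_20 = true := by decide +kernel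
def sc2_20 : stCov (nat_lit 1) (nat_lit 129) (Rl.cons (nat_lit 129) (nat_lit 42) Rl.nil) C2_20 = true := by decide +kernel
def wf2_21 : wfC (nat_lit 61) (nat_lit 15) C2_21 = true := by decide +kernel
def rf2_21 : rfCk (nat_lit 60) (nat_lit 4) (nat_lit 61) (nat_lit 15) (nat_lit 6) (nat_lit 262144) (nat_lit 21) TL2 CL1 CL2 = true := by decide +kernel
def st2_21_0 : starCk (nat_lit 61) (nat_lit 15) (nat_lit 1) (nat_lit 7) (nat_lit 32) (nat_lit 94) (nat_lit 16) C2_21 = true := by decide +kernel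
def sc2_21 : stCov (nat_lit 1) (nat_lit 94) (Rl.cons (nat_lit 94) (nat_lit 32) Rl.nil) C2_21 = true := by decide +kernel
def wf2_22 : wfC (nat_lit 61) (nat_lit 15) C2_22 = true := by decide +kernel
def rf2_22 : rfCk (nat_lit 60) (nat_lit 4) (nat_lit 61) (nat_lit 15) (nat_lit 6) (nat_lit 262144) (nat_lit 22) TL2 CL1 CL2 = true := by decide +kernel
def st2_22_0 : starCk (nat_lit 61) (nat_lit 15) (nat_lit 1) (nat_lit 7) (nat_lit 7) (nat_lit 38) (nat_lit 16) C2_22 = true := by decide +kernel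
def sc2_22 : stCov (nat_lit 1) (nat_lit 38) (Rl.cons (nat_lit 38) (nat_lit 7) Rl.nil) C2_22 = true := by decide +kernel

end Pool.Agent.NNr.R13_1_2_6
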