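import Pool.Agent.NNr.R13_1_2_6.D0
import Pool.Agent.NNr.R13_1_2_6.D1
import Pool.Agent.NNr.R13_1_2_6.D2
import Pool.Agent.NNr.R13_1_2_6.D3
import Pool.Agent.NNe.Slots

set_option linter.all false
set_option maxRecDepth 1000000
namespace Pool.Agent.NNr.R13_1_2_6

open Pool.Agent.NNe

def ti2_0 : tileCk (nat_lit 61) (nat_lit 15) (nat_lit 2) (nat_lit 7) (nat_lit 123) (nat_lit 13) (nat_lit 24) ZL2_0 CL2 = true := by decide +kernel
def zl2_0 : zlOK (nat_lit 123) ZL2_0 = true := by decide +kernel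
def ti2_1 : tileCk (nat_lit 61) (nat_lit 15) (nat_lit 2) (nat_lit 7) (nat_lit 123) (nat_lit 13) (nat_lit 24) ZL2_1 CL2 = true := by decide +kernel
def zl2_1 : zlOK (nat_lit 123) ZL2_1 = true := by decide +kernel
def ti2_2 : tileCk (nat_lit 61) (nat_lit 15) (nat_lit 2) (nat_lit 7) (nat_lit 118) (nat_lit 13) (nat_lit 24) ZL2_2 CL2 = true := by decide +kernel
def zl2_2 : zlOK (nat_lit 118) ZL2_2 = true := by decide +kernel
def tc2_0 : tiCov (nat_lit 1) (nat_lit 0) ZZ2 C2_0 = true := by decide +kernel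
def tc2_1 : tiCov (nat_lit 1) (nat_lit 1) ZZ2 C2_1 = true := by decide +kernel
def tc2_2 : tiCov (nat_lit 1) (nat_lit 2) ZZ2 C2_2 = true := by decide +kernel
def tc2_3 : tiCov (nat_lit 1) (nat_lit 3) ZZ2 C2_3 = true := by decide +kernel
def tc2_4 : tiCov (nat_lit 1) (nat_lit 4) ZZ2 C2_4 = true := by decide +kernel
def tc2_5 : tiCov (nat_lit 1) (nat_lit 5) ZZ2 C2_5 = true := by decide +kernel
def tc2_7 : tiCov (nat_lit 1) (nat_lit 7) ZZ2 C2_7 = true := by decide +kernel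
def tc2_8 : tiCov (nat_lit 1) (nat_lit 8) ZZ2 C2_8 = true := by decide +kernel
def tc2_10 : tiCov (nat_lit 1) (nat_lit 10) ZZ2 C2_10 = true := by decide +kernel
def tc2_17 : tiCov (nat_lit 1) (nat_lit 17) ZZ2 C2_17 = true := by decide +kernel
def tc2_18 : tiCov (nat_lit 1) (nat_lit 18) ZZ2 C2_18 = true := by decide +kernel
def tc2_19 : tiCov (nat_lit 1) (nat_lit 19) ZZ2 C2_19 = true := by decide +kernel
def tc2_20 : tiCov (nat_lit 1) (nat_lit 20) ZZ2 C2_20 = true := by decide +kernel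
def tc2_21 : tiCov (nat_lit 1) (nat_lit 21) ZZ2 C2_21 = true := by decide +kernel
def tc2_22 : tiCov (nat_lit 1) (nat_lit 22) ZZ2 C2_22 = true := by decide +kernel
def wf3_3 : wfC (nat_lit 58) (nat_lit 8) C3_3 = true := by decide +kernel
def rf3_3 : rfCk (nat_lit 61) (nat_lit 15) (nat_lit 58) (nat_lit 8) (nat_lit 9) (nat_lit 0) (nat_lit 3) TL3 CL2 CL3 = true := by decide +kernel
def st3_3_0 : starCk (nat_lit 58) (nat_lit 8) (nat_lit 2) (nat_lit 3) (nat_lit 1) (nat_lit 0) (nat_lit 16) C3_3 = true := by decide +kernel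
def sc3_3 : stCov (nat_lit 1) (nat_lit 0) (Rl.cons (nat_lit 0) (nat_lit 1) Rl.nil) C3_3 = true := by decide +kernel
def wf3_4 : wfC (nat_lit 58) (nat_lit 8) C3_4 = true := by decide +kernel
def rf3_4 : rfCk (nat_lit 61) (nat_lit 15) (nat_lit 58) (nat_lit 8) (nat_lit 9) (nat_lit 0) (nat_lit 4) TL3 CL2 CL3 = true := by decide +kernel
def st3_4_0 : starCk (nat_lit 58) (nat_lit 8) (nat_lit 2) (nat_lit 3) (nat_lit 6) (nat_lit 7) (nat_lit 1) C3_4 = true := by decide +kernel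
def sc3_4 : stCov (nat_lit 0) (nat_lit 7) (Rl.cons (nat_lit 7) (nat_lit 6) Rl.nil) C3_4 = true := by decide +kernel
def wf3_8 : wfC (nat_lit 58) (nat_lit 8) C3_8 = true := by decide +kernel
def rf3_8 : rfCk (nat_lit 61) (nat_lit 15) (nat_lit 58) (nat_lit 8) (nat_lit 9) (nat_lit 0) (nat_lit 8) TL3 CL2 CL3 = true := by decide +kernel
def st3_8_0 : starCk (nat_lit 58) (nat_lit 8) (nat_lit 2) (nat_lit 3) (nat_lit 8) (nat_lit 39) (nat_lit 256) C3_8 = true := by decide +kernel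
def sc3_8 : stCov (nat_lit 2) (nat_lit 39) (Rl.cons (nat_lit 39) (nat_lit 8) Rl.nil) C3_8 = true := by decide +kernel
def wf3_17 : wfC (nat_lit 58) (nat_lit 8) C3_17 = true := by decide +kernel
def rf3_17 : rfCk (nat_lit 61) (nat_lit 15) (nat_lit 58) (nat_lit 8) (nat_lit 9) (nat_lit 0) (nat_lit 17) TL3 CL2 CL3 = true := by decide +kernel
def st3_17_0 : starCk (nat_lit 58) (nat_lit 8) (nat_lit 2) (nat_lit 3) (nat_lit 12) (nat_lit 19) (nat_lit 1) C3_17 = true := by decide +kernel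
def sc3_17 : stCov (nat_lit 0) (nat_lit 19) (Rl.cons (nat_lit 19) (nat_lit 12) Rl.nil) C3_17 = true := by decide +kernel
def wf3_20 : wfC (nat_lit 58) (nat_lit 8) C3_20 = true := by decide +kernel
def rf3_20 : rfCk (nat_lit 61) (nat_lit 15) (nat_lit 58) (nat_lit 8) (nat_lit 9) (nat_lit 0) (nat_lit 20) TL3 CL2 CL3 = true := by decide +kernel
def st3_20_0 : starCk (nat_lit 58) (nat_lit 8) (nat_lit 2) (nat_lit 3) (nat_lit 11) (nat_lit 26) (nat_lit 4096) C3_20 = true := by decide +kernel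
def sc3_20 : stCov (nat_lit 3) (nat_lit 26) (Rl.cons (nat_lit 26) (nat_lit 11) Rl.nil) C3_20 = true := by decide +kernel
def wf3_22 : wfC (nat_lit 58) (nat_lit 8) C3_22 = true := by decide +kernel
def rf3_22 : rfCk (nat_lit 61) (nat_lit 15) (nat_lit 58) (nat_lit 8) (nat_lit 9) (nat_lit 0) (nat_lit 22) TL3 CL2 CL3 = true := by decide +kernel
def st3_22_0 : starCk (nat_lit 58) (nat_lit 8) (nat_lit 2) (nat_lit 3) (nat_lit 3) (nat_lit 8) (nat_lit 16) C3_22 = true := by decide +kernel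
def sc3_22 : stCov (nat_lit 1) (nat_lit 8) (Rl.cons (nat_lit 8) (nat_lit 3) Rl.nil) C3_22 = true := by decide +kernel
def ti3_0 : tileCk (nat_lit 58) (nat_lit 8) (nat_lit 1) (nat_lit 4) (nat_lit 39) (nat_lit 13) (nat_lit 24) ZL3_0 CL3 = true := by decide +kernel
def zl3_0 : zlOK (nat_lit 39) ZL3_0 = true := by decide +kernel
def ti3_1 : tileCk (nat_lit 58) (nat_lit 8) (nat_lit 1) (nat_lit 4) (nat_lit 13) (nat_lit 13) (nat_lit 24) ZL3_1 CL3 = true := by decide +kernel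
def zl3_1 : zlOK (nat_lit 13) ZL3_1 = true := by decide +kernel
def tc3_3 : tiCov (nat_lit 1) (nat_lit 3) ZZ3 C3_3 = true := by decide +kernel
def tc3_4 : tiCov (nat_lit 1) (nat_lit 4) ZZ3 C3_4 = true := by decide +kernel
def tc3_8 : tiCov (nat_lit 1) (nat_lit 8) ZZ3 C3_8 = true := by decide +kernel
def tc3_17 : tiCov (nat_lit 1) (nat_lit 17) ZZ3 C3_17 = true := by decide +kernel
def tc3_20 : tiCov (nat_lit 1) (nat_lit 20) ZZ3 C3_20 = true := by decide +kernel
def tc3_22 : tiCov (nat_lit 1) (nat_lit 22) ZZ3 C3_22 = true := by decide +kernel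
def de3_3 : deadCk (nat_lit 58) (nat_lit 8) C3_3 = true := by decide +kernel
def de3_4 : deadCk (nat_lit 58) (nat_lit 8) C3_4 = true := by decide +kernel
def de3_8 : deadCk (nat_lit 58) (nat_lit 8) C3_8 = true := by decide +kernel
def de3_17 : deadCk (nat_lit 58) (nat_lit 8) C3_17 = true := by decide +kernel
def de3_20 : deadCk (nat_lit 58) (nat_lit 8) C3_20 = true := by decide +kernel
def de3_22 : deadCk (nat_lit 58) (nat_lit 8) C3_22 = true := by decide +kernel
def sc0_0 : stCov (nat_lit 2) (nat_lit 0) (Rl.cons (nat_lit 0) (nat_lit 43) Rl.nil) C0_0 = true := by decide +kernel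
def sc0_1 : stCov (nat_lit 1) (nat_lit 0) (Rl.cons (nat_lit 0) (nat_lit 106) Rl.nil) C0_1 = true := by decide +kernel
def sc0_2 : stCov (nat_lit 1) (nat_lit 0) (Rl.cons (nat_lit 0) (nat_lit 58) Rl.nil) C0_2 = true := by decide +kernel
def sc0_3 : stCov (nat_lit 1) (nat_lit 0) (Rl.cons (nat_lit 0) (nat_lit 12) Rl.nil) C0_3 = true := by decide +kernel
def sc0_4 : stCov (nat_lit 0) (nat_lit 0) (Rl.cons (nat_lit 0) (nat_lit 202) Rl.nil) C0_4 = true := by decide +kernel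
def sc0_5 : stCov (nat_lit 0) (nat_lit 0) (Rl.cons (nat_lit 0) (nat_lit 130) Rl.nil) C0_5 = true := by decide +kernel
def sc0_6 : stCov (nat_lit 0) (nat_lit 0) (Rl.cons (nat_lit 0) (nat_lit 37) Rl.nil) C0_6 = true := by decide +kernel
def sc0_7 : stCov (nat_lit 0) (nat_lit 0) (Rl.cons (nat_lit 0) (nat_lit 162) Rl.nil) C0_7 = true := by decide +kernel
def sc0_8 : stCov (nat_lit 0) (nat_lit 0) (Rl.cons (nat_lit 0) (nat_lit 103) Rl.nil) C0_8 = true := by decide +kernel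
def sc0_9 : stCov (nat_lit 0) (nat_lit 0) (Rl.cons (nat_lit 0) (nat_lit 28) Rl.nil) C0_9 = true := by decide +kernel
def sc0_10 : stCov (nat_lit 0) (nat_lit 0) (Rl.cons (nat_lit 0) (nat_lit 76) Rl.nil) C0_10 = true := by decide +kernel
def sc0_11 : stCov (nat_lit 0) (nat_lit 0) (Rl.cons (nat_lit 0) (nat_lit 77) Rl.nil) C0_11 = true := by decide +kernel
def sc0_12 : stCov (nat_lit 0) (nat_lit 0) (Rl.cons (nat_lit 0) (nat_lit 14) Rl.nil) C0_12 = true := by decide +kernel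
def sc0_13 : stCov (nat_lit 0) (nat_lit 0) (Rl.cons (nat_lit 0) (nat_lit 54) Rl.nil) C0_13 = true := by decide +kernel
def sc0_14 : stCov (nat_lit 0) (nat_lit 0) (Rl.cons (nat_lit 0) (nat_lit 2) Rl.nil) C0_14 = true := by decide +kernel
def sc0_15 : stCov (nat_lit 0) (nat_lit 0) (Rl.cons (nat_lit 0) (nat_lit 27) Rl.nil) C0_15 = true := by decide +kernel
def sc0_16 : stCov (nat_lit 0) (nat_lit 0) (Rl.cons (nat_lit 0) (nat_lit 1) Rl.nil) C0_16 = true := by decide +kernel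
def sc0_17 : stCov (nat_lit 0) (nat_lit 0) (Rl.cons (nat_lit 0) (nat_lit 806) Rl.nil) C0_17 = true := by decide +kernel
def sc0_18 : stCov (nat_lit 0) (nat_lit 0) (Rl.cons (nat_lit 0) (nat_lit 381) Rl.nil) C0_18 = true := by decide +kernel
def sc0_19 : stCov (nat_lit 0) (nat_lit 0) (Rl.cons (nat_lit 0) (nat_lit 522) Rl.nil) C0_19 = true := by decide +kernel
def sc0_20 : stCov (nat_lit 0) (nat_lit 0) (Rl.cons (nat_lit 0) (nat_lit 366) Rl.nil) C0_20 = true := by decide +kernel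
def sc0_21 : stCov (nat_lit 0) (nat_lit 0) (Rl.cons (nat_lit 0) (nat_lit 316) Rl.nil) C0_21 = true := by decide +kernel
def sc0_22 : stCov (nat_lit 0) (nat_lit 0) (Rl.cons (nat_lit 0) (nat_lit 243) Rl.nil) C0_22 = true := by decide +kernel
def sc0_23 : stCov (nat_lit 0) (nat_lit 0) (Rl.cons (nat_lit 0) (nat_lit 82) Rl.nil) C0_23 = true := by decide +kernel
def wf1_14 : wfC (nat_lit 60) (nat_lit 4) C1_14 = true := by decide +kernel
def wf1_16 : wfC (nat_lit 60) (nat_lit 4) C1_16 = true := by decide +kernel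
def rf1_14 : rfCk (nat_lit 61) (nat_lit 2) (nat_lit 60) (nat_lit 4) (nat_lit 9) (nat_lit 0) (nat_lit 14) TL1 CL0 CL1 = true := by decide +kernel
def rf1_16 : rfCk (nat_lit 61) (nat_lit 2) (nat_lit 60) (nat_lit 4) (nat_lit 9) (nat_lit 0) (nat_lit 16) TL1 CL0 CL1 = true := by decide +kernel
def sc1_14 : stCov (nat_lit 0) (nat_lit 0) Rl.nil C1_14 = true := by decide +kernel
def sc1_16 : stCov (nat_lit 0) (nat_lit 0) Rl.nil C1_16 = true := by decide +kernel
def tc1_14 : tiCov (nat_lit 1) (nat_lit 14) ZZ1 C1_14 = true := by decide +kernel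
def tc1_16 : tiCov (nat_lit 1) (nat_lit 16) ZZ1 C1_16 = true := by decide +kernel
def wf2_6 : wfC (nat_lit 61) (nat_lit 15) C2_6 = true := by decide +kernel
def wf2_9 : wfC (nat_lit 61) (nat_lit 15) C2_9 = true := by decide +kernel
def wf2_11 : wfC (nat_lit 61) (nat_lit 15) C2_11 = true := by decide +kernel
def wf2_12 : wfC (nat_lit 61) (nat_lit 15) C2_12 = true := by decide +kernel
def wf2_13 : wfC (nat_lit 61) (nat_lit 15) C2_13 = true := by decide +kernel
def wf2_14 : wfC (nat_lit 61) (nat_lit 15) C2_14 = true := by decide +kernel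
def wf2_15 : wfC (nat_lit 61) (nat_lit 15) C2_15 = true := by decide +kernel
def wf2_16 : wfC (nat_lit 61) (nat_lit 15) C2_16 = true := by decide +kernel
def wf2_23 : wfC (nat_lit 61) (nat_lit 15) C2_23 = true := by decide +kernel
def rf2_6 : rfCk (nat_lit 60) (nat_lit 4) (nat_lit 61) (nat_lit 15) (nat_lit 6) (nat_lit 262144) (nat_lit 6) TL2 CL1 CL2 = true := by decide +kernel
def rf2_9 : rfCk (nat_lit 60) (nat_lit 4) (nat_lit 61) (nat_lit 15) (nat_lit 6) (nat_lit 262144) (nat_lit 9) TL2 CL1 CL2 = true := by decide +kernel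
def rf2_11 : rfCk (nat_lit 60) (nat_lit 4) (nat_lit 61) (nat_lit 15) (nat_lit 6) (nat_lit 262144) (nat_lit 11) TL2 CL1 CL2 = true := by decide +kernel
def rf2_12 : rfCk (nat_lit 60) (nat_lit 4) (nat_lit 61) (nat_lit 15) (nat_lit 6) (nat_lit 262144) (nat_lit 12) TL2 CL1 CL2 = true := by decide +kernel
def rf2_13 : rfCk (nat_lit 60) (nat_lit 4) (nat_lit 61) (nat_lit 15) (nat_lit 6) (nat_lit 262144) (nat_lit 13) TL2 CL1 CL2 = true := by decide +kernel
def rf2_14 : rfCk (nat_lit 60) (nat_lit 4) (nat_lit 61) (nat_lit 15) (nat_lit 6) (nat_lit 262144) (nat_lit 14) TL2 CL1 CL2 = true := by decide +kernel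
def rf2_15 : rfCk (nat_lit 60) (nat_lit 4) (nat_lit 61) (nat_lit 15) (nat_lit 6) (nat_lit 262144) (nat_lit 15) TL2 CL1 CL2 = true := by decide +kernel
def rf2_16 : rfCk (nat_lit 60) (nat_lit 4) (nat_lit 61) (nat_lit 15) (nat_lit 6) (nat_lit 262144) (nat_lit 16) TL2 CL1 CL2 = true := by decide +kernel
def rf2_23 : rfCk (nat_lit 60) (nat_lit 4) (nat_lit 61) (nat_lit 15) (nat_lit 6) (nat_lit 262144) (nat_lit 23) TL2 CL1 CL2 = true := by decide +kernel
def sc2_6 : stCov (nat_lit 0) (nat_lit 0) Rl.nil C2_6 = true := by decide +kernel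
def sc2_9 : stCov (nat_lit 0) (nat_lit 0) Rl.nil C2_9 = true := by decide +kernel
def sc2_11 : stCov (nat_lit 0) (nat_lit 0) Rl.nil C2_11 = true := by decide +kernel
def sc2_12 : stCov (nat_lit 0) (nat_lit 0) Rl.nil C2_12 = true := by decide +kernel
def sc2_13 : stCov (nat_lit 0) (nat_lit 0) Rl.nil C2_13 = true := by decide +kernel
def sc2_14 : stCov (nat_lit 0) (nat_lit 0) Rl.nil C2_14 = true := by decide +kernel
def sc2_15 : stCov (nat_lit 0) (nat_lit 0) Rl.nil C2_15 = true := by decide +kernel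
def sc2_16 : stCov (nat_lit 0) (nat_lit 0) Rl.nil C2_16 = true := by decide +kernel
def sc2_23 : stCov (nat_lit 0) (nat_lit 0) Rl.nil C2_23 = true := by decide +kernel
def tc2_6 : tiCov (nat_lit 1) (nat_lit 6) ZZ2 C2_6 = true := by decide +kernel
def tc2_9 : tiCov (nat_lit 1) (nat_lit 9) ZZ2 C2_9 = true := by decide +kernel
def tc2_11 : tiCov (nat_lit 1) (nat_lit 11) ZZ2 C2_11 = true := by decide +kernel
def tc2_12 : tiCov (nat_lit 1) (nat_lit 12) ZZ2 C2_12 = true := by decide +kernel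
def tc2_13 : tiCov (nat_lit 1) (nat_lit 13) ZZ2 C2_13 = true := by decide +kernel
def tc2_14 : tiCov (nat_lit 1) (nat_lit 14) ZZ2 C2_14 = true := by decide +kernel
def tc2_15 : tiCov (nat_lit 1) (nat_lit 15) ZZ2 C2_15 = true := by decide +kernel
def tc2_16 : tiCov (nat_lit 1) (nat_lit 16) ZZ2 C2_16 = true := by decide +kernel
def tc2_23 : tiCov (nat_lit 1) (nat_lit 23) ZZ2 C2_23 = true := by decide +kernel
def wf3_0 : wfC (nat_lit 58) (nat_lit 8) C3_0 = true := by decide +kernel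
def wf3_1 : wfC (nat_lit 58) (nat_lit 8) C3_1 = true := by decide +kernel
def wf3_2 : wfC (nat_lit 58) (nat_lit 8) C3_2 = true := by decide +kernel
def wf3_5 : wfC (nat_lit 58) (nat_lit 8) C3_5 = true := by decide +kernel
def wf3_6 : wfC (nat_lit 58) (nat_lit 8) C3_6 = true := by decide +kernel
def wf3_7 : wfC (nat_lit 58) (nat_lit 8) C3_7 = true := by decide +kernel
def wf3_9 : wfC (nat_lit 58) (nat_lit 8) C3_9 = true := by decide +kernel
def wf3_10 : wfC (nat_lit 58) (nat_lit 8) C3_10 = true := by decide +kernel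
def wf3_11 : wfC (nat_lit 58) (nat_lit 8) C3_11 = true := by decide +kernel
def wf3_12 : wfC (nat_lit 58) (nat_lit 8) C3_12 = true := by decide +kernel
def wf3_13 : wfC (nat_lit 58) (nat_lit 8) C3_13 = true := by decide +kernel
def wf3_14 : wfC (nat_lit 58) (nat_lit 8) C3_14 = true := by decide +kernel
def wf3_15 : wfC (nat_lit 58) (nat_lit 8) C3_15 = true := by decide +kernel
def wf3_16 : wfC (nat_lit 58) (nat_lit 8) C3_16 = true := by decide +kernel
def wf3_18 : wfC (nat_lit 58) (nat_lit 8) C3_18 = true := by decide +kernel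
def wf3_19 : wfC (nat_lit 58) (nat_lit 8) C3_19 = true := by decide +kernel
def wf3_21 : wfC (nat_lit 58) (nat_lit 8) C3_21 = true := by decide +kernel
def wf3_23 : wfC (nat_lit 58) (nat_lit 8) C3_23 = true := by decide +kernel
def rf3_0 : rfCk (nat_lit 61) (nat_lit 15) (nat_lit 58) (nat_lit 8) (nat_lit 9) (nat_lit 0) (nat_lit 0) TL3 CL2 CL3 = true := by decide +kernel
def rf3_1 : rfCk (nat_lit 61) (nat_lit 15) (nat_lit 58) (nat_lit 8) (nat_lit 9) (nat_lit 0) (nat_lit 1) TL3 CL2 CL3 = true := by decide +kernel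
def rf3_2 : rfCk (nat_lit 61) (nat_lit 15) (nat_lit 58) (nat_lit 8) (nat_lit 9) (nat_lit 0) (nat_lit 2) TL3 CL2 CL3 = true := by decide +kernel
def rf3_5 : rfCk (nat_lit 61) (nat_lit 15) (nat_lit 58) (nat_lit 8) (nat_lit 9) (nat_lit 0) (nat_lit 5) TL3 CL2 CL3 = true := by decide +kernel
def rf3_6 : rfCk (nat_lit 61) (nat_lit 15) (nat_lit 58) (nat_lit 8) (nat_lit 9) (nat_lit 0) (nat_lit 6) TL3 CL2 CL3 = true := by decide +kernel
def rf3_7 : rfCk (nat_lit 61) (nat_lit 15) (nat_lit 58) (nat_lit 8) (nat_lit 9) (nat_lit 0) (nat_lit 7) TL3 CL2 CL3 = true := by decide +kernel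
def rf3_9 : rfCk (nat_lit 61) (nat_lit 15) (nat_lit 58) (nat_lit 8) (nat_lit 9) (nat_lit 0) (nat_lit 9) TL3 CL2 CL3 = true := by decide +kernel
def rf3_10 : rfCk (nat_lit 61) (nat_lit 15) (nat_lit 58) (nat_lit 8) (nat_lit 9) (nat_lit 0) (nat_lit 10) TL3 CL2 CL3 = true := by decide +kernel
def rf3_11 : rfCk (nat_lit 61) (nat_lit 15) (nat_lit 58) (nat_lit 8) (nat_lit 9) (nat_lit 0) (nat_lit 11) TL3 CL2 CL3 = true := by decide +kernel
def rf3_12 : rfCk (nat_lit 61) (nat_lit 15) (nat_lit 58) (nat_lit 8) (nat_lit 9) (nat_lit 0) (nat_lit 12) TL3 CL2 CL3 = true := by decide +kernel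
def rf3_13 : rfCk (nat_lit 61) (nat_lit 15) (nat_lit 58) (nat_lit 8) (nat_lit 9) (nat_lit 0) (nat_lit 13) TL3 CL2 CL3 = true := by decide +kernel
def rf3_14 : rfCk (nat_lit 61) (nat_lit 15) (nat_lit 58) (nat_lit 8) (nat_lit 9) (nat_lit 0) (nat_lit 14) TL3 CL2 CL3 = true := by decide +kernel
def rf3_15 : rfCk (nat_lit 61) (nat_lit 15) (nat_lit 58) (nat_lit 8) (nat_lit 9) (nat_lit 0) (nat_lit 15) TL3 CL2 CL3 = true := by decide +kernel
def rf3_16 : rfCk (nat_lit 61) (nat_lit 15) (nat_lit 58) (nat_lit 8) (nat_lit 9) (nat_lit 0) (nat_lit 16) TL3 CL2 CL3 = true := by decide +kernel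
def rf3_18 : rfCk (nat_lit 61) (nat_lit 15) (nat_lit 58) (nat_lit 8) (nat_lit 9) (nat_lit 0) (nat_lit 18) TL3 CL2 CL3 = true := by decide +kernel
def rf3_19 : rfCk (nat_lit 61) (nat_lit 15) (nat_lit 58) (nat_lit 8) (nat_lit 9) (nat_lit 0) (nat_lit 19) TL3 CL2 CL3 = true := by decide +kernel
def rf3_21 : rfCk (nat_lit 61) (nat_lit 15) (nat_lit 58) (nat_lit 8) (nat_lit 9) (nat_lit 0) (nat_lit 21) TL3 CL2 CL3 = true := by decide +kernel
def rf3_23 : rfCk (nat_lit 61) (nat_lit 15) (nat_lit 58) (nat_lit 8) (nat_lit 9) (nat_lit 0) (nat_lit 23) TL3 CL2 CL3 = true := by decide +kernel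
def sc3_0 : stCov (nat_lit 2) (nat_lit 0) Rl.nil C3_0 = true := by decide +kernel
def sc3_1 : stCov (nat_lit 1) (nat_lit 0) Rl.nil C3_1 = true := by decide +kernel
def sc3_2 : stCov (nat_lit 1) (nat_lit 0) Rl.nil C3_2 = true := by decide +kernel
def sc3_5 : stCov (nat_lit 0) (nat_lit 0) Rl.nil C3_5 = true := by decide +kernel
def sc3_6 : stCov (nat_lit 0) (nat_lit 0) Rl.nil C3_6 = true := by decide +kernel
def sc3_7 : stCov (nat_lit 0) (nat_lit 0) Rl.nil C3_7 = true := by decide +kernel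
def sc3_9 : stCov (nat_lit 0) (nat_lit 0) Rl.nil C3_9 = true := by decide +kernel
def sc3_10 : stCov (nat_lit 0) (nat_lit 0) Rl.nil C3_10 = true := by decide +kernel
def sc3_11 : stCov (nat_lit 0) (nat_lit 0) Rl.nil C3_11 = true := by decide +kernel
def sc3_12 : stCov (nat_lit 0) (nat_lit 0) Rl.nil C3_12 = true := by decide +kernel
def sc3_13 : stCov (nat_lit 0) (nat_lit 0) Rl.nil C3_13 = true := by decide +kernel
def sc3_14 : stCov (nat_lit 0) (nat_lit 0) Rl.nil C3_14 = true := by decide +kernel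
def sc3_15 : stCov (nat_lit 0) (nat_lit 0) Rl.nil C3_15 = true := by decide +kernel
def sc3_16 : stCov (nat_lit 0) (nat_lit 0) Rl.nil C3_16 = true := by decide +kernel
def sc3_18 : stCov (nat_lit 0) (nat_lit 0) Rl.nil C3_18 = true := by decide +kernel
def sc3_19 : stCov (nat_lit 0) (nat_lit 0) Rl.nil C3_19 = true := by decide +kernel
def sc3_21 : stCov (nat_lit 0) (nat_lit 0) Rl.nil C3_21 = true := by decide +kernel
def sc3_23 : stCov (nat_lit 0) (nat_lit 0) Rl.nil C3_23 = true := by decide +kernel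
def tc3_0 : tiCov (nat_lit 1) (nat_lit 0) ZZ3 C3_0 = true := by decide +kernel
def tc3_1 : tiCov (nat_lit 1) (nat_lit 1) ZZ3 C3_1 = true := by decide +kernel
def tc3_2 : tiCov (nat_lit 1) (nat_lit 2) ZZ3 C3_2 = true := by decide +kernel
def tc3_5 : tiCov (nat_lit 1) (nat_lit 5) ZZ3 C3_5 = true := by decide +kernel
def tc3_6 : tiCov (nat_lit 1) (nat_lit 6) ZZ3 C3_6 = true := by decide +kernel
def tc3_7 : tiCov (nat_lit 1) (nat_lit 7) ZZ3 C3_7 = true := by decide +kernel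

end Pool.Agent.NNr.R13_1_2_6
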