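import Pool.Agent.NNr.R13_1_2_6.D3

set_option linter.all false
set_option maxRecDepth 1000000
namespace Pool.Agent.NNr.R13_1_2_6

open Pool.Agent.NNe

def tc3_9 : tiCov (nat_lit 1) (nat_lit 9) ZZ3 C3_9 = true := by decide +kernel
def tc3_10 : tiCov (nat_lit 1) (nat_lit 10) ZZ3 C3_10 = true := by decide +kernel
def tc3_11 : tiCov (nat_lit 1) (nat_lit 11) ZZ3 C3_11 = true := by decide +kernel
def tc3_12 : tiCov (nat_lit 1) (nat_lit 12) ZZ3 C3_12 = true := by decide +kernel
def tc3_13 : tiCov (nat_lit 1) (nat_lit 13) ZZ3 C3_13 = true := by decide +kernel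
def tc3_14 : tiCov (nat_lit 1) (nat_lit 14) ZZ3 C3_14 = true := by decide +kernel
def tc3_15 : tiCov (nat_lit 1) (nat_lit 15) ZZ3 C3_15 = true := by decide +kernel
def tc3_16 : tiCov (nat_lit 1) (nat_lit 16) ZZ3 C3_16 = true := by decide +kernel
def tc3_18 : tiCov (nat_lit 1) (nat_lit 18) ZZ3 C3_18 = true := by decide +kernel
def tc3_19 : tiCov (nat_lit 1) (nat_lit 19) ZZ3 C3_19 = true := by decide +kernel
def tc3_21 : tiCov (nat_lit 1) (nat_lit 21) ZZ3 C3_21 = true := by decide +kernel
def tc3_23 : tiCov (nat_lit 1) (nat_lit 23) ZZ3 C3_23 = true := by decide +kernel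
def de3_0 : deadCk (nat_lit 58) (nat_lit 8) C3_0 = true := by decide +kernel
def de3_1 : deadCk (nat_lit 58) (nat_lit 8) C3_1 = true := by decide +kernel
def de3_2 : deadCk (nat_lit 58) (nat_lit 8) C3_2 = true := by decide +kernel
def de3_5 : deadCk (nat_lit 58) (nat_lit 8) C3_5 = true := by decide +kernel
def de3_6 : deadCk (nat_lit 58) (nat_lit 8) C3_6 = true := by decide +kernel
def de3_7 : deadCk (nat_lit 58) (nat_lit 8) C3_7 = true := by decide +kernel
def de3_9 : deadCk (nat_lit 58) (nat_lit 8) C3_9 = true := by decide +kernel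
def de3_10 : deadCk (nat_lit 58) (nat_lit 8) C3_10 = true := by decide +kernel
def de3_11 : deadCk (nat_lit 58) (nat_lit 8) C3_11 = true := by decide +kernel
def de3_12 : deadCk (nat_lit 58) (nat_lit 8) C3_12 = true := by decide +kernel
def de3_13 : deadCk (nat_lit 58) (nat_lit 8) C3_13 = true := by decide +kernel
def de3_14 : deadCk (nat_lit 58) (nat_lit 8) C3_14 = true := by decide +kernel
def de3_15 : deadCk (nat_lit 58) (nat_lit 8) C3_15 = true := by decide +kernel
def de3_16 : deadCk (nat_lit 58) (nat_lit 8) C3_16 = true := by decide +kernel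
def de3_18 : deadCk (nat_lit 58) (nat_lit 8) C3_18 = true := by decide +kernel
def de3_19 : deadCk (nat_lit 58) (nat_lit 8) C3_19 = true := by decide +kernel
def de3_21 : deadCk (nat_lit 58) (nat_lit 8) C3_21 = true := by decide +kernel
def de3_23 : deadCk (nat_lit 58) (nat_lit 8) C3_23 = true := by decide +kernel

end Pool.Agent.NNr.R13_1_2_6
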